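import Mathlib
import Pool.Agent.Helper809.Cub.Chain

set_option autoImplicit false

open Polynomial

namespace Pool.Agent.Results.MP_cd2e96_co.RoyleCubic

/-- `p` is the chromatic polynomial of `G`: for every natural number `k` the value `p(k)` is the
number of proper vertex colourings of `G` with colours from a set of `k` colours. -/
def IsChromaticPoly {V : Type} (G : SimpleGraph V) (p : ℤ[X]) : Prop :=
  ∀ k : ℕ, p.eval (k : ℤ) = Nat.card (G.Coloring (Fin k))

/-- The set of moduli `|z|` of the chromatic roots `z ∈ ℂ` of `G`. -/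
def rootModuli {V : Type} (G : SimpleGraph V) : Set ℝ :=
  {r : ℝ | ∃ (p : ℤ[X]) (z : ℂ), IsChromaticPoly G p ∧ aeval z p = 0 ∧ r = ‖z‖}

/-- `ρ(G)`, the largest modulus of a chromatic root of `G`. -/
noncomputable def rho {V : Type} (G : SimpleGraph V) : ℝ := sSup (rootModuli G)

theorem coloring_card {V : Type} (G : SimpleGraph V) (k : ℕ) :
    Nat.card (G.Coloring (Fin k)) = ChrRoots.col G.Adj k := by
  unfold ChrRoots.col
  refine Nat.card_congr
    { toFun := fun c => ⟨fun v => c v, fun u v h => c.valid h⟩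
      invFun := fun s => SimpleGraph.Coloring.mk s.1 (fun {u v} h => s.2 u v h)
      left_inv := fun c => by ext v; rfl
      right_inv := fun s => by ext v; rfl }

open Classical in
/-- the integer polynomial behind `ChrRoots.P` -/
noncomputable def chrPoly {V : Type} [Fintype V] (G : SimpleGraph V) : ℤ[X] :=
  ∑ A ∈ (Finset.univ.filter (fun e : V × V => G.Adj e.1 e.2)).powerset,
    (-1) ^ A.card * X ^ (Nat.card (Quot (fun u v : V => (u, v) ∈ A)))

theorem aeval_chrPoly {V : Type} [Fintype V] (G : SimpleGraph V) (x : ℝ) :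
    aeval x (chrPoly G) = ChrRoots.P G.Adj x := by
  unfold chrPoly ChrRoots.P
  rw [map_sum]
  refine Finset.sum_congr rfl (fun A _ => ?_)
  simp

theorem isChromaticPoly_chrPoly {V : Type} [Fintype V] (G : SimpleGraph V) :
    IsChromaticPoly G (chrPoly G) := by
  intro k
  have h := aeval_chrPoly G (k : ℝ)
  rw [ChrRoots.P_nat] at h
  have h2 : aeval (k : ℝ) (chrPoly G) = (((chrPoly G).eval (k : ℤ) : ℤ) : ℝ) := by
    rw [Polynomial.aeval_def, Polynomial.eval₂_eq_eval_map]
    have : (k : ℝ) = (Int.castRingHom ℝ) (k : ℤ) := by simp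
    rw [this, algebraMap_int_eq, Polynomial.eval_map, Polynomial.eval₂_at_apply]
    rfl
  rw [h2] at h
  rw [coloring_card]
  exact_mod_cast h

theorem IsChromaticPoly.unique {V : Type} {G : SimpleGraph V} {p p' : ℤ[X]}
    (h : IsChromaticPoly G p) (h' : IsChromaticPoly G p') : p = p' := by
  refine Polynomial.eq_of_infinite_eval_eq p p' ?_
  refine Set.infinite_of_injective_forall_mem (f := fun k : ℕ => (k : ℤ)) Nat.cast_injective ?_
  intro k
  show p.eval (k : ℤ) = p'.eval (k : ℤ)
  rw [h k, h' k]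

theorem rootModuli_eq {V : Type} {G : SimpleGraph V} {p : ℤ[X]} (h : IsChromaticPoly G p) :
    rootModuli G = (fun z : ℂ => ‖z‖) '' {z | aeval z p = 0} := by
  ext r
  constructor
  · rintro ⟨p', z, h1, h2, rfl⟩
    rw [h1.unique h] at h2
    exact ⟨z, h2, rfl⟩
  · rintro ⟨z, hz, rfl⟩
    exact ⟨p, z, h, hz, rfl⟩

theorem rootModuli_finite {V : Type} [Fintype V] (G : SimpleGraph V) (hp : chrPoly G ≠ 0) :
    (rootModuli G).Finite := by
  rw [rootModuli_eq (isChromaticPoly_chrPoly G)]
  apply Set.Finite.image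
  refine Set.Finite.subset (Multiset.finite_toSet ((chrPoly G).aroots ℂ)) ?_
  intro z hz
  exact (Polynomial.mem_aroots).2 ⟨hp, hz⟩

theorem chrPoly_ne_zero {V : Type} [Fintype V] (G : SimpleGraph V) : chrPoly G ≠ 0 := by
  intro h0
  have h := isChromaticPoly_chrPoly G (Fintype.card V)
  rw [h0, Polynomial.eval_zero] at h
  have hne : Nonempty (G.Coloring (Fin (Fintype.card V))) :=
    ⟨SimpleGraph.Coloring.mk (Fintype.equivFin V) (fun {u v} huv heq =>
      huv.ne ((Fintype.equivFin V).injective heq))⟩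
  haveI : Finite (G.Coloring (Fin (Fintype.card V))) :=
    Finite.of_injective (fun c => (fun v => c v)) (fun c c' hcc => by
      ext v; exact congrArg Fin.val (congrFun hcc v))
  have hpos : 0 < Nat.card (G.Coloring (Fin (Fintype.card V))) := Nat.card_pos
  have : (0 : ℤ) < (Nat.card (G.Coloring (Fin (Fintype.card V))) : ℤ) := by exact_mod_cast hpos
  omega

theorem isGreatest_rho {V : Type} [Fintype V] [Nonempty V] (G : SimpleGraph V) :
    IsGreatest (rootModuli G) (rho G) := by
  have hfin := rootModuli_finite G (chrPoly_ne_zero G)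
  have hne : (rootModuli G).Nonempty := by
    refine ⟨‖(0 : ℂ)‖, chrPoly G, 0, isChromaticPoly_chrPoly G, ?_, rfl⟩
    have h := isChromaticPoly_chrPoly G 0
    have hc : Nat.card (G.Coloring (Fin 0)) = 0 := by
      haveI : IsEmpty (G.Coloring (Fin 0)) := ⟨fun c => (c (Classical.arbitrary V)).elim0⟩
      exact Nat.card_of_isEmpty
    rw [hc] at h
    have h1 : (chrPoly G).coeff 0 = 0 := by
      rw [Polynomial.coeff_zero_eq_eval_zero]
      simpa using h
    rw [Polynomial.aeval_def, Polynomial.eval₂_at_zero, h1, map_zero]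
  exact ⟨hne.csSup_mem hfin, fun r hr => le_csSup hfin.bddAbove hr⟩

/-- Disproof of Royle's conjecture on the largest moduli of chromatic roots of connected cubic
graphs. Every finite graph has a unique chromatic polynomial, and there is a connected
3-regular graph `G`, isomorphic neither to `K_4` nor to `K_{3,3}`, with
`ρ(K_{3,3}) < 2.9 < ρ(G)`. -/
theorem result :
    (∀ (n : ℕ) (G : SimpleGraph (Fin n)), ∃! p : ℤ[X], IsChromaticPoly G p) ∧
    ∃ (n : ℕ) (G : SimpleGraph (Fin n)), G.Connected ∧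
      (∀ v : Fin n, Nat.card (G.neighborSet v) = 3) ∧
      ¬ Nonempty (G ≃g (⊤ : SimpleGraph (Fin 4))) ∧
      ¬ Nonempty (G ≃g completeBipartiteGraph (Fin 3) (Fin 3)) ∧
      IsGreatest (rootModuli (completeBipartiteGraph (Fin 3) (Fin 3)))
        (rho (completeBipartiteGraph (Fin 3) (Fin 3))) ∧
      IsGreatest (rootModuli G) (rho G) ∧
      rho (completeBipartiteGraph (Fin 3) (Fin 3)) < 29 / 10 ∧ 29 / 10 < rho G := by
  refine ⟨fun n G => ⟨chrPoly G, isChromaticPoly_chrPoly G, fun p hp =>
    hp.unique (isChromaticPoly_chrPoly G)⟩, ?_⟩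
  obtain ⟨m, G, hm, hG, hd, x, hx, hx3, hroot⟩ := ChrRoots.exists_cubic
  haveI : Nonempty (Fin m) := hG.nonempty
  have hgG := isGreatest_rho G
  have hgK := isGreatest_rho (completeBipartiteGraph (Fin 3) (Fin 3))
  refine ⟨m, G, hG, hd, ?_, ?_, hgK, hgG, ?_, ?_⟩
  · rintro ⟨e⟩
    have := Fintype.card_congr e.toEquiv
    simp only [Fintype.card_fin] at this
    exact hm this
  · rintro ⟨e⟩
    have h1 := ChrRoots.J14.P_congr e.toEquiv G.Adj
      (completeBipartiteGraph (Fin 3) (Fin 3)).Adj (fun u v => (e.map_adj_iff).symm) x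
    rw [hroot, ChrRoots.P_K33] at h1
    have h2 := ChrRoots.J22.K33_pos x hx
    linarith
  · obtain ⟨p, z, hp, hz, hr⟩ := hgK.1
    rw [hr]
    apply ChrRoots.J22.K33_root_bound
    have hq : IsChromaticPoly (completeBipartiteGraph (Fin 3) (Fin 3))
        (X * (X - 1) * (X ^ 4 - 8 * X ^ 3 + 28 * X ^ 2 - 47 * X + 31) : ℤ[X]) := by
      intro k
      have h := ChrRoots.P_K33 (k : ℝ)
      rw [ChrRoots.P_nat, ← coloring_card] at h
      have h2 : ((Nat.card ((completeBipartiteGraph (Fin 3) (Fin 3)).Coloring (Fin k)) : ℤ) : ℝ) =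
          (((k : ℤ) * ((k : ℤ) - 1) * ((k : ℤ) ^ 4 - 8 * (k : ℤ) ^ 3 + 28 * (k : ℤ) ^ 2
            - 47 * (k : ℤ) + 31) : ℤ) : ℝ) := by
        push_cast
        exact h
      have h3 := Int.cast_injective (α := ℝ) h2
      rw [h3]
      simp
    rw [hp.unique hq] at hz
    simp only [map_mul, map_sub, map_add, map_pow, aeval_X, map_one, map_ofNat] at hz
    exact hz
  · have hmem : x ∈ rootModuli G := by
      refine ⟨chrPoly G, (x : ℂ), isChromaticPoly_chrPoly G, ?_, ?_⟩
      · have h := aeval_chrPoly G x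
        rw [hroot] at h
        have h2 : aeval (algebraMap ℝ ℂ x) (chrPoly G) = algebraMap ℝ ℂ (aeval x (chrPoly G)) :=
          Polynomial.aeval_algebraMap_apply ℂ x (chrPoly G)
        rw [h, map_zero] at h2
        exact h2
      · rw [Complex.norm_real, Real.norm_eq_abs, abs_of_pos (by linarith)]
    have := hgG.2 hmem
    linarith

end Pool.Agent.Results.MP_cd2e96_co.RoyleCubic
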